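import Pool.Agent.Helper70.MM.Goals5

/-!
# Packet MM5-CLOSE: the maximiser is close to the uniform measure of the sphere near the threshold
-/

open MeasureTheory Set Metric
open scoped ENNReal RealInnerProductSpace Topology
open Pool.Agent.Results.MP_91ee6f_gt
open Pool.Agent.Helper67.MaxMeas (bil)
open Pool.Agent.Helper70.MM

namespace Pool.Agent.Helper39.MM5

lemma exp_bd {n : ℕ} (x y : En n) : ‖Real.exp (-dist x y)‖ ≤ 1 := by
  rw [Real.norm_eq_abs, abs_of_pos (Real.exp_pos _), Real.exp_le_one_iff]
  linarith [dist_nonneg (x := x) (y := y)]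

lemma cont_pot {n : ℕ} (μ : Measure (En n)) [IsFiniteMeasure μ] :
    Continuous (potential μ) := by
  refine continuous_of_dominated (bound := fun _ => 1) ?_ ?_ (integrable_const _) ?_
  · intro x
    have : Continuous fun y : En n => Real.exp (-dist x y) := by fun_prop
    exact this.aestronglyMeasurable
  · intro x
    exact Filter.Eventually.of_forall fun y => exp_bd x y
  · exact Filter.Eventually.of_forall fun y => by fun_prop

lemma bil_comm {n : ℕ} (μ ν : Measure (En n)) [IsFiniteMeasure μ] [IsFiniteMeasure ν] :
    bil μ ν = bil ν μ := by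
  unfold Pool.Agent.Helper67.MaxMeas.bil
  rw [integral_integral_swap]
  · simp_rw [dist_comm]
  · have hc : Continuous (Function.uncurry fun x y : En n => Real.exp (-dist x y)) := by
      simp only [Function.uncurry_def]
      fun_prop
    exact (integrable_const (1 : ℝ)).mono' hc.aestronglyMeasurable
      (Filter.Eventually.of_forall fun p => exp_bd p.1 p.2)

/-- if the potential of `ν` is a.e. constant for `μ` -/
lemma bil_of_ae {n : ℕ} (μ ν : Measure (En n)) [IsProbabilityMeasure μ] (c : ℝ)
    (h : ∀ᵐ x ∂μ, potential ν x = c) : bil μ ν = c := by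
  calc bil μ ν = ∫ x, potential ν x ∂μ := rfl
    _ = ∫ x, c ∂μ := integral_congr_ae h
    _ = c := by simp

lemma bil_zero_right {n : ℕ} (μ : Measure (En n)) : bil μ 0 = 0 := by
  unfold Pool.Agent.Helper67.MaxMeas.bil
  simp

lemma bil_zero_left {n : ℕ} (μ : Measure (En n)) : bil (0 : Measure (En n)) μ = 0 := by
  unfold Pool.Agent.Helper67.MaxMeas.bil
  simp

lemma bil_dirac {n : ℕ} (x : En n) (μ : Measure (En n)) :
    bil (Measure.dirac x) μ = potential μ x := by
  have : bil (Measure.dirac x) μ = ∫ z, potential μ z ∂(Measure.dirac x) := rfl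
  rw [this, integral_dirac]

lemma potential_dirac {n : ℕ} (x y : En n) :
    potential (Measure.dirac x) y = Real.exp (-dist y x) := by
  unfold potential
  rw [integral_dirac]

theorem close (hcs : CSE) (hnb : NEARB) : CLOSE := by
  intro n hn
  obtain ⟨C, hC, hnb⟩ := hnb n hn
  refine ⟨C, hC, ?_⟩
  intro R hR hE w hwp hwb hwg c hc hcs'
  have hn1 : 1 ≤ n := by omega
  obtain ⟨hσp, hσs, -⟩ := fSPH1 n hn1 R
  have hσs := hσs hR.le
  obtain ⟨-, hm2, hm3, hm4⟩ := fMINP n hn1 R hR
  have hbd : sphere (0 : En n) R ⊆ w.support := fBDRY n hn1 R hR w hwp hwb hwg c hc hcs'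
  -- the four numbers
  have b1 : bil w w = c := by
    refine bil_of_ae w w c ?_
    filter_upwards [Measure.support_mem_ae (μ := w)] with x hx
    exact hcs' x hx
  have b2 : bil (sphUnif n R) w = c := by
    refine bil_of_ae _ w c ?_
    filter_upwards [hσs] with x hx
    exact hcs' x (hbd (by simpa [mem_sphere_zero_iff_norm] using hx))
  have b3 : bil w (sphUnif n R) = c := by rw [bil_comm, b2]
  have b4 : bil (sphUnif n R) (sphUnif n R) = sphEnergy n R := rfl
  have hwae : ∀ᵐ x ∂w, ‖x‖ ≤ R := by
    rw [ae_iff]
    refine measure_mono_null (fun x hx => ?_) hwb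
    simpa using hx
  -- `exp (-R) ≤ c`
  have hlow : Real.exp (-R) ≤ c := by
    have e1 : bil w (sphUnif n R) = ∫ x, potential (sphUnif n R) x ∂w := rfl
    rw [← b3, e1]
    have e2 : ∫ x, Real.exp (-R) ∂w = Real.exp (-R) := by simp
    rw [← e2]
    refine integral_mono_ae (integrable_const _) ?_ ?_
    · refine (integrable_const (1 : ℝ)).mono' (cont_pot _).aestronglyMeasurable
        (Filter.Eventually.of_forall fun x => ?_)
      have : ‖potential (sphUnif n R) x‖ ≤ 1 * (sphUnif n R).real univ :=
        norm_integral_le_of_norm_le_const (Filter.Eventually.of_forall fun y => exp_bd x y)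
      simpa using this
    · filter_upwards [hwae] with x hx
      have := hm4 x hx
      rwa [min_eq_left hE] at this
  have hpos := Pool.Agent.Helper67.MaxMeas.bil_sub_nonneg w (sphUnif n R)
  rw [b1, b2, b3, b4] at hpos
  have hup : c ≤ sphEnergy n R := by linarith
  refine ⟨hlow, hup, fun x => ?_, fun e r he hr1 hr2 hr3 => ?_⟩
  · -- pointwise
    have h := hcs n w (sphUnif n R) (Measure.dirac x) 0 inferInstance inferInstance inferInstance
      inferInstance
    rw [bil_comm w (Measure.dirac x), bil_comm (sphUnif n R) (Measure.dirac x), bil_dirac,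
      bil_dirac, bil_zero_right, bil_zero_right, bil_zero_right, bil_zero_left, bil_dirac,
      potential_dirac, bil_zero_left, dist_self, b1, b2, b3, b4] at h
    simp only [neg_zero, Real.exp_zero, sub_zero, add_zero, mul_one] at h
    linarith
  · have hr0 : 0 < r := by linarith
    obtain ⟨hrp, hrs, -⟩ := fSPH1 n hn1 r
    have hrs := hrs hr0.le
    have h := hcs n w (sphUnif n R) (sphUnif n R) (sphUnif n r) inferInstance inferInstance
      inferInstance inferInstance
    have hnR : ‖R • e‖ = R := by rw [norm_smul, he, mul_one, Real.norm_of_nonneg hR.le]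
    have hnr : ‖r • e‖ = r := by rw [norm_smul, he, mul_one, Real.norm_of_nonneg hr0.le]
    have c1 : bil w (sphUnif n R) = potential w (R • e) := by
      rw [bil_comm]
      refine bil_of_ae _ w _ ?_
      filter_upwards [hσs] with x hx
      exact Pool.Agent.Helper27.MM.potential_radial w hwg _ _ (hx.trans hnR.symm)
    have c2 : bil w (sphUnif n r) = potential w (r • e) := by
      rw [bil_comm]
      refine bil_of_ae _ w _ ?_
      filter_upwards [hrs] with x hx
      exact Pool.Agent.Helper27.MM.potential_radial w hwg _ _ (hx.trans hnr.symm)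
    have c3 : bil (sphUnif n R) (sphUnif n R) = PP e R R := by
      refine bil_of_ae _ _ _ ?_
      filter_upwards [hσs] with x hx
      exact hm3 _ _ (hx.trans hnR.symm)
    have c4 : bil (sphUnif n R) (sphUnif n r) = PP e R r := by
      rw [bil_comm]
      refine bil_of_ae _ _ _ ?_
      filter_upwards [hrs] with x hx
      exact hm3 _ _ (hx.trans hnr.symm)
    have hfac := (hnb e he R r hR hr1 hr2 hr3).2
    have hfac0 := Pool.Agent.Helper67.MaxMeas.bil_sub_nonneg (sphUnif n R) (sphUnif n r)
    set F : ℝ := bil (sphUnif n R) (sphUnif n R) - bil (sphUnif n R) (sphUnif n r) -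
      bil (sphUnif n r) (sphUnif n R) + bil (sphUnif n r) (sphUnif n r) with hF
    have hq : bil w w - bil w (sphUnif n R) - bil (sphUnif n R) w +
        bil (sphUnif n R) (sphUnif n R) = sphEnergy n R - c := by
      rw [b1, b2, b3, b4]; ring
    rw [hq] at h
    have hl : potential w (R • e) - PP e R R - (potential w (r • e) - PP e R r) =
        bil w (sphUnif n R) - bil w (sphUnif n r) - bil (sphUnif n R) (sphUnif n R) +
          bil (sphUnif n R) (sphUnif n r) := by
      rw [c1, c2, c3, c4]; ring
    rw [hl]
    refine h.trans ?_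
    calc (sphEnergy n R - c) * F ≤ (sphEnergy n R - Real.exp (-R)) * F :=
          mul_le_mul_of_nonneg_right (by linarith) hfac0
      _ ≤ (sphEnergy n R - Real.exp (-R)) * ((2 + C / R) * (R - r) ^ 2) :=
          mul_le_mul_of_nonneg_left hfac (by linarith)
      _ = _ := by ring

end Pool.Agent.Helper39.MM5
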